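import Mathlib
import Pool.Agent.LeoD.CountStmts

/-!
# BFN: the ideals of a `BFr` (squad LEOD)
-/

set_option autoImplicit false

open NumberField NumberField.InfinitePlace NumberField.mixedEmbedding IsDedekindDomain Module
  MeasureTheory Filter Topology
open Pool.Agent.Helper85_Leo Pool.Agent.LeoK Pool.Agent.LeoG Pool.Agent.LeoC

open scoped Classical

namespace Pool.Agent.LeoD.H26

theorem b_pos {k : Type} [Field k] [NumberField k] (B : BFr k) : 0 < B.b := by
  rcases Nat.eq_zero_or_pos B.b with h | h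
  · have := B.cop
    rw [h] at this
    norm_num at this
  · exact h

theorem bb_ne {k : Type} [Field k] [NumberField k] (B : BFr k) : B.bb ≠ ⊥ := by
  intro h
  have h1 := B.nrm
  rw [h, Ideal.absNorm_bot] at h1
  have := b_pos B
  omega

theorem span_b_ne {k : Type} [Field k] [NumberField k] (B : BFr k) :
    Ideal.span {(B.b : 𝓞 k)} ≠ ⊥ := by
  rw [Ne, Ideal.span_singleton_eq_bot]
  exact_mod_cast (b_pos B).ne'

theorem cc_ne {k : Type} [Field k] [NumberField k] (B : BFr k) : B.cc ≠ ⊥ := by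
  intro h
  have h1 := B.mul
  rw [h, Ideal.mul_bot] at h1
  exact span_b_ne B h1.symm

theorem absNorm_span_nat {k : Type} [Field k] [NumberField k] (n : ℕ) :
    Ideal.absNorm (Ideal.span {(n : 𝓞 k)}) = n ^ finrank ℚ k := by
  rw [Ideal.absNorm_span_natCast, RingOfIntegers.rank]

theorem nrm_cc {k : Type} [Field k] [NumberField k] (B : BFr k) :
    B.b * Ideal.absNorm B.cc = B.b ^ finrank ℚ k := by
  rw [← absNorm_span_nat (k := k) B.b, ← B.mul, map_mul, ← B.nrm]

theorem b_notMem {k : Type} [Field k] [NumberField k] (B : BFr k) (p : HeightOneSpectrum (𝓞 k))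
    (hp : (6 : 𝓞 k) ∈ p.asIdeal) : (B.b : 𝓞 k) ∉ p.asIdeal := by
  intro hb
  have h1 : IsCoprime (B.b : ℤ) (6 : ℤ) := by
    have := Nat.isCoprime_iff_coprime.mpr B.cop
    simpa using this
  obtain ⟨u, v, huv⟩ := h1
  have h2 : (u : 𝓞 k) * (B.b : 𝓞 k) + (v : 𝓞 k) * 6 = 1 := by exact_mod_cast huv
  apply p.isPrime.ne_top
  rw [Ideal.eq_top_iff_one, ← h2]
  exact add_mem (Ideal.mul_mem_left _ _ hb) (Ideal.mul_mem_left _ _ hp)

theorem b_mem {k : Type} [Field k] [NumberField k] (B : BFr k) :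
    (B.b : 𝓞 k) ∈ B.bb * B.cc := by
  rw [B.mul]
  exact Ideal.mem_span_singleton_self _

theorem bfn : BfnStmt := by
  intro k _ _ B
  refine ⟨b_pos B, bb_ne B, cc_ne B, nrm_cc B, ?_, ?_⟩
  · intro p hp
    have h := b_notMem B p hp
    refine ⟨h, fun h1 => h (h1 ?_), fun h1 => h (h1 ?_)⟩
    · have h2 : B.bb * B.cc ≤ B.bb := Ideal.mul_le_left
      exact h2 (b_mem B)
    · have h2 : B.bb * B.cc ≤ B.cc := Ideal.mul_le_right
      exact h2 (b_mem B)
  · intro a ha
    have h1 : Ideal.span {a} ≠ (⊥ : Ideal (𝓞 k)) := by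
      rwa [Ne, Ideal.span_singleton_eq_bot]
    refine (Ideal.finite_factors h1).subset ?_
    intro p hp
    simp only [Set.mem_ofPred_eq] at hp ⊢
    rw [Ideal.dvd_span_singleton]
    exact hp

end Pool.Agent.LeoD.H26
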