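import Mathlib
import Pool.Agent.LeoD.CountStmts

/-!
# Squad LEOD, module CNTB: the final inequality of the counting part (port of Helper89_LeoC.Cnt)
-/

set_option autoImplicit false

open NumberField NumberField.InfinitePlace NumberField.mixedEmbedding IsDedekindDomain Module
  MeasureTheory Filter Topology
open Pool.Agent.LeoK Pool.Agent.LeoG Pool.Agent.LeoC

namespace Pool.Agent.LeoD.H26

/-- the choice of the small parameter -/
theorem small {c ε r : ℝ} (hc : 0 < c) (hε : 0 < ε) (hr0 : 0 < r) (hr : r ≤ 1 / 2) :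
    ∃ θ : ℝ, 0 < θ ∧ θ ≤ 1 / 2 ∧ θ < c ∧
    2 * θ + (c * r + θ) / (1 - θ) ≤ (r + ε) * (c - θ) := by
  have h5 : 0 < 5 + c + ε := by positivity
  obtain ⟨θ, hθ⟩ : ∃ θ : ℝ, θ = min (1 / 2) (min (c / 2) (ε * c / (5 + c + ε))) := ⟨_, rfl⟩
  have h1 : θ ≤ 1 / 2 := by rw [hθ]; exact min_le_left _ _
  have h2 : θ ≤ ε * c / (5 + c + ε) := by
    rw [hθ]; exact (min_le_right _ _).trans (min_le_right _ _)
  have h2' : θ ≤ c / 2 := by
    rw [hθ]; exact (min_le_right _ _).trans (min_le_left _ _)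
  have h0 : 0 < θ := by
    rw [hθ]
    exact lt_min (by norm_num) (lt_min (by positivity) (by positivity))
  have h3 : θ * (5 + c + ε) ≤ ε * c := by
    rwa [le_div_iff₀ h5] at h2
  have h4 : (c * r + θ) / (1 - θ) ≤ (c * r + θ) * (1 + 2 * θ) := by
    rw [div_le_iff₀ (by linarith)]
    have h6 : 1 ≤ (1 + 2 * θ) * (1 - θ) := by nlinarith
    have hpos : 0 < c * r + θ := by positivity
    nlinarith
  refine ⟨θ, h0, h1, by linarith, ?_⟩
  have h7 : θ * (c * r) ≤ θ * (c * (1 / 2)) :=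
    mul_le_mul_of_nonneg_left (mul_le_mul_of_nonneg_left hr hc.le) h0.le
  have h8 : θ * θ ≤ θ * (1 / 2) := mul_le_mul_of_nonneg_left h1 h0.le
  have h9 : θ * r ≤ θ * (1 / 2) := mul_le_mul_of_nonneg_left hr h0.le
  nlinarith

/-- the finite product is close to the infinite one -/
theorem small2 {a b s : ℝ} (ha : 0 < a) (hb : 0 < b) (hs : 0 < s) : ∃ e : ℝ, 0 < e ∧
    (a + e) * (b + e) ≤ a * b + s := by
  have h : 0 < a + b + 1 := by positivity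
  refine ⟨min 1 (s / (a + b + 1)), lt_min one_pos (by positivity), ?_⟩
  obtain ⟨e, he⟩ : ∃ e : ℝ, e = min 1 (s / (a + b + 1)) := ⟨_, rfl⟩
  rw [← he]
  have h1 : e ≤ 1 := by rw [he]; exact min_le_left _ _
  have h2 : e ≤ s / (a + b + 1) := by rw [he]; exact min_le_right _ _
  have h0 : 0 < e := by rw [he]; exact lt_min one_pos (by positivity)
  have h3 : e * (a + b + 1) ≤ s := by rwa [le_div_iff₀ h] at h2
  nlinarith

section mirror

variable {k : Type} [Field k] [NumberField k]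

omit [NumberField k] in
theorem mm_gmir (g : Q4 (𝓞 k)) : mm (gmir g) = mm g := by
  simp only [mm, dsc, gmir, Matrix.cons_val_zero, Matrix.cons_val_one, Matrix.cons_val]
  ring

theorem lrg_gmir (hka : HkaStmt) {N : Set {w : InfinitePlace k // IsReal w}} {δ : ℝ}
    {g : Q4 (𝓞 k)} (h : Lrg N δ g) (hm : mm g ≠ 0) : Lrg N δ (gmir g) := by
  refine ⟨?_, fun X Y hXY => ?_⟩
  · rw [mm_gmir]; exact h.sgn
  · rw [(hka k g hm).2.2.2.2.1 X Y]
    refine h.short (-X) Y ?_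
    rcases hXY with h' | h'
    · exact Or.inl (neg_ne_zero.2 h')
    · exact Or.inr h'

theorem nr_zero : nr (av (mixedEmbedding k ((0 : 𝓞 k) : k))) = 0 := by
  obtain ⟨v⟩ : Nonempty (InfinitePlace k) := inferInstance
  have h1 : av (mixedEmbedding k ((0 : 𝓞 k) : k)) v = 0 := by
    have e : mixedEmbedding k ((0 : 𝓞 k) : k) = 0 := by
      have e0 : ((0 : 𝓞 k) : k) = 0 := rfl
      rw [e0, map_zero]
    rw [e, av, ev]
    split_ifs <;> simp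
  unfold nr
  refine Finset.prod_eq_zero (Finset.mem_univ v) ?_
  rw [h1]
  exact zero_pow mult_ne_zero

omit [NumberField k] in
theorem me_mul (c : ℕ) (m : 𝓞 k) :
    mixedEmbedding k (((c : 𝓞 k) * m : 𝓞 k) : k) = (c : ℝ) • mixedEmbedding k (m : k) := by
  have e : (((c : 𝓞 k) * m : 𝓞 k) : k) = (c : k) * (m : k) := by push_cast; ring
  rw [e, map_mul, map_natCast, ← nsmul_eq_mul, Nat.cast_smul_eq_nsmul]

theorem av_smul (evs : EvsStmt) (t : ℝ) (ht : 0 ≤ t) (y : MS k) : av (t • y) = t • av y := by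
  funext v
  have h := (evs k).2.2.1 v t y
  simp only [av, h, norm_mul, Pi.smul_apply, smul_eq_mul]
  rw [Complex.norm_real, Real.norm_of_nonneg ht]

omit [NumberField k] in
theorem sgn_smul (N : Set {w : InfinitePlace k // IsReal w}) (t : ℝ) (ht : 0 < t) (y : MS k)
    (h : Sgn N y) : Sgn N (t • y) := by
  refine ⟨fun w => ⟨fun hw => ?_, fun hw => ?_⟩, fun w => ?_⟩
  · have := (h.1 w).1 hw
    simp only [Prod.smul_fst, Pi.smul_apply, smul_eq_mul]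
    exact mul_neg_of_pos_of_neg ht this
  · have := (h.1 w).2 hw
    simp only [Prod.smul_fst, Pi.smul_apply, smul_eq_mul]
    exact mul_pos ht this
  · simp only [Prod.smul_snd, Pi.smul_apply]
    exact smul_ne_zero ht.ne' (h.2 w)

end mirror

theorem cntb (lowb : LowbStmt) (msb : MsbStmt) (mst : Pool.Agent.LeoC.MstStmt) (upp : Pool.Agent.LeoC.UppStmt)
    (denb : DenbStmt) (injb : InjbStmt) (exc : Pool.Agent.LeoC.ExcStmt) (usb : UsbStmt)
    (pik : PikStmt) (pie : PieStmt) (con : Pool.Agent.LeoC.ConStmt) (hka : HkaStmt) (evs : EvsStmt)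
    (bfn : BfnStmt) : CntbStmt := by
  classical
  intro k _ _ M h hM hcyc Φ N B E
  obtain ⟨hD, hw, hcF, -, hnr, -⟩ := con k Φ
  obtain ⟨hb0, hbb, hcc, hbn, -, hfinp⟩ := bfn k B
  obtain ⟨hMfin, ⟨AM, hAM, hAMle⟩, hMlow⟩ := msb k Φ N B E
  obtain ⟨-, hPk, -, -, hPle, hPeps⟩ := pik k
  obtain ⟨hDk, -, hDle, hDeps⟩ := pie k E
  obtain ⟨n, hn⟩ : ∃ n : ℕ, n = finrank ℚ k := ⟨_, rfl⟩
  obtain ⟨u, hu⟩ : ∃ u : ℕ, u = un N := ⟨_, rfl⟩
  obtain ⟨q, hq⟩ : ∃ q : ℝ, q = (2 * Real.pi) ^ nrComplexPlaces k := ⟨_, rfl⟩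
  obtain ⟨C, hC⟩ : ∃ C : ℝ, C = (Ideal.absNorm B.cc : ℝ) := ⟨_, rfl⟩
  obtain ⟨bR, hbR⟩ : ∃ bR : ℝ, bR = (B.b : ℝ) := ⟨_, rfl⟩
  have hbR0 : 0 < bR := by rw [hbR]; exact_mod_cast hb0
  have hC0 : 0 < C := by
    rw [hC]
    have h1 : Ideal.absNorm B.cc ≠ 0 := by rwa [Ne, Ideal.absNorm_eq_zero_iff]
    exact_mod_cast Nat.pos_of_ne_zero h1
  have hbC : bR * C = bR ^ n := by
    rw [hbR, hC, hn]
    exact_mod_cast hbn
  have hq0 : 0 < q := by rw [hq]; positivity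
  rw [← hn, ← hq, ← hC] at hMlow
  rw [← hu]
  obtain ⟨r, hr⟩ : ∃ r : ℝ, r = 1 / (2 * 3 ^ u) := ⟨_, rfl⟩
  have hr0 : 0 < r := by rw [hr]; positivity
  have hr1 : r ≤ 1 / 2 := by
    rw [hr]
    have h3 : (1 : ℝ) ≤ 3 ^ u := one_le_pow₀ (by norm_num)
    exact one_div_le_one_div_of_le (by norm_num) (by linarith)
  rw [← hr]
  obtain ⟨cM, hcM⟩ : ∃ cM : ℝ, cM = DkE E * (q * Φ.w) / (cov k * 2 ^ n * C ^ 2) := ⟨_, rfl⟩
  have hcM0 : 0 < cM := by rw [hcM]; positivity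
  rw [← hcM] at hMlow
  refine ⟨hMfin, ⟨cM / 2, by positivity, ?_⟩, ?_⟩
  · obtain ⟨Z₀, hZ₀⟩ := hMlow (cM / 2) (by positivity)
    filter_upwards [eventually_ge_atTop Z₀] with Z hZ
    have := hZ₀ Z hZ
    have e : cM - cM / 2 = cM / 2 := by ring
    rwa [e] at this
  intro ε hε
  -- the factor
  obtain ⟨κ, hκ⟩ : ∃ κ : ℝ, κ = (B.kap : ℝ) := ⟨_, rfl⟩
  have hkap0 : 0 < B.kap := by
    unfold BFr.kap
    positivity
  have hκ1 : 1 ≤ κ := by
    rw [hκ]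
    exact_mod_cast hkap0
  have hκ0 : 0 < κ := by linarith
  have hκn : 1 ≤ κ ^ n := one_le_pow₀ hκ1
  have hκn0 : 0 < κ ^ n := by positivity
  have hκe : κ ^ n = 3 ^ (8 * n) * bR ^ (6 * n) := by
    have e1 : κ = 3 ^ 8 * bR ^ 6 := by
      rw [hκ, hbR]
      unfold BFr.kap
      push_cast
      norm_num
    rw [e1, mul_pow, ← pow_mul, ← pow_mul]
  have hκeq : bR ^ 2 / (3 ^ (8 * n) * bR ^ (8 * n)) * κ ^ n = 1 / C ^ 2 := by
    have h1 : bR ^ (8 * n) = bR ^ (6 * n) * (bR * C) ^ 2 := by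
      rw [hbC, ← pow_mul, ← pow_add]
      congr 1
      ring
    rw [hκe, h1]
    field_simp
  -- scaling
  have hsc : ∀ m : 𝓞 k, av (mixedEmbedding k (((B.kap : 𝓞 k) * m : 𝓞 k) : k)) =
      κ • av (mixedEmbedding k (m : k)) := by
    intro m
    rw [me_mul, ← hκ, av_smul evs κ hκ0.le]
  have hscn : ∀ m : 𝓞 k, nr (av (mixedEmbedding k (((B.kap : 𝓞 k) * m : 𝓞 k) : k))) =
      κ ^ n * nr (av (mixedEmbedding k (m : k))) := by
    intro m
    rw [hsc, hnr, hn]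
  have hkmul : Function.Injective fun m : 𝓞 k => (B.kap : 𝓞 k) * m := by
    have : (B.kap : 𝓞 k) ≠ 0 := by exact_mod_cast hkap0.ne'
    exact mul_right_injective₀ this
  obtain ⟨θ, hθ0, hθ1, hθc, hθ⟩ := small hcM0 hε hr0 hr1
  -- small norms and short vectors
  obtain ⟨AE, hAE, hexc⟩ := exc k Φ N
  obtain ⟨AS, hAS, hmst⟩ := mst k Φ
  obtain ⟨η', hη'0, hη'1, hη'⟩ : ∃ η' : ℝ, 0 < η' ∧ η' ≤ 1 ∧ AM * η' ≤ θ := by
    refine ⟨min 1 (θ / AM), lt_min one_pos (by positivity), min_le_left _ _, ?_⟩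
    calc AM * min 1 (θ / AM) ≤ AM * (θ / AM) :=
          mul_le_mul_of_nonneg_left (min_le_right _ _) hAM.le
      _ = θ := by field_simp
  obtain ⟨δ, hδ0, hδ1, hδ⟩ : ∃ δ : ℝ, 0 < δ ∧ δ ≤ 1 ∧ AE * δ * κ ^ n ≤ θ := by
    refine ⟨min 1 (θ / (AE * κ ^ n)), lt_min one_pos (by positivity), min_le_left _ _, ?_⟩
    calc AE * min 1 (θ / (AE * κ ^ n)) * κ ^ n ≤ AE * (θ / (AE * κ ^ n)) * κ ^ n :=
          mul_le_mul_of_nonneg_right
            (mul_le_mul_of_nonneg_left (min_le_right _ _) hAE.le) hκn0.le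
      _ = θ := by field_simp
  obtain ⟨T, η, hT, hη0, hη1, hlow⟩ := lowb k Φ N B δ θ hδ0 hθ0
  rw [← hn, ← hbR] at hlow
  obtain ⟨cL, hcL⟩ : ∃ cL : ℝ, cL = Pk k * (2 * Real.pi) ^ n * Φ.w * T / cov k ^ 2 := ⟨_, rfl⟩
  have hcL0 : 0 < cL := by rw [hcL]; positivity
  obtain ⟨K, hK⟩ : ∃ K : ℝ, K = Real.pi ^ n / 3 ^ u * q * T * Φ.w ^ 2 / cov k ^ 3 := ⟨_, rfl⟩
  have hK0 : 0 < K := by rw [hK]; positivity
  have hKc : Pk k * DkE E * K / C ^ 2 = 2 * cL * (cM * r) := by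
    rw [hK, hcL, hcM, hr, mul_pow]
    field_simp
  rw [← hcL] at hlow
  -- the residue classes
  obtain ⟨e, he0, he⟩ := small2 hPk hDk (s := cL * θ * C ^ 2 / K) (by positivity)
  obtain ⟨Q₁, hQ₁⟩ := hPeps e he0
  obtain ⟨Q₂, hQ₂⟩ := hDeps e he0
  have h6b : (6 * B.b : 𝓞 k) ≠ 0 := by
    have : (6 * B.b : ℕ) ≠ 0 := by positivity
    exact_mod_cast this
  have hQ3 := hfinp (6 * B.b : 𝓞 k) h6b
  obtain ⟨Q, hQ⟩ : ∃ Q : Finset (HeightOneSpectrum (𝓞 k)), Q = Q₁ ∪ (Q₂ ∪ hQ3.toFinset) :=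
    ⟨_, rfl⟩
  have hQs1 : Q₁ ⊆ Q := by rw [hQ]; exact Finset.subset_union_left
  have hQs2 : Q₂ ⊆ Q := by
    rw [hQ]; exact Finset.subset_union_left.trans Finset.subset_union_right
  have hQs3 : ∀ p : HeightOneSpectrum (𝓞 k), (6 * B.b : 𝓞 k) ∈ p.asIdeal → p ∈ Q := by
    intro p hp
    rw [hQ]
    refine Finset.mem_union_right _ (Finset.mem_union_right _ ?_)
    rw [Set.Finite.mem_toFinset]
    exact hp
  have hQ1 := (hQ₁ Q hQs1).1
  have hQ2 := hQ₂ Q hQs2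
  obtain ⟨I, S, hI, hS, hScard⟩ := denb k M h hM hcyc B E Q hQs3
  rw [← hn, ← hbR] at hScard
  have hdf : (∏ p ∈ Q, (1 - 1 / np p ^ 2)) * ∏ p ∈ Q, dE E p ≤
      Pk k * DkE E + cL * θ * C ^ 2 / K := by
    refine le_trans (mul_le_mul hQ1 hQ2 ?_ ?_) he
    · exact hDk.le.trans (hDle Q)
    · positivity
  obtain ⟨η₂, hη₂⟩ : ∃ η₂ : ℝ, η₂ = min η η' := ⟨_, rfl⟩
  have hη₂0 : 0 < η₂ := by rw [hη₂]; exact lt_min hη0 hη'0
  obtain ⟨Z₁, hZ₁, hupp⟩ := upp k Φ N I hI S T η₂ (cL * θ / κ ^ n) hT hη₂0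
    (by rw [hη₂]; exact (min_le_left _ _).trans hη1) (by positivity)
  rw [← hn, ← hu, ← hq, ← hK] at hupp
  obtain ⟨Z₂, hZ₂⟩ := hMlow θ hθ0
  filter_upwards [eventually_ge_atTop Z₁, eventually_ge_atTop Z₂,
    eventually_gt_atTop (1 / η'), eventually_gt_atTop ((24 ^ n * C ^ 2) / η')] with
    Z hZZ₁ hZZ₂ hZη hZη2
  have hZ1 : 1 ≤ Z := hZ₁.trans hZZ₁
  have hZ0 : 0 < Z := by linarith
  have hηZ : 1 < η' * Z := by
    rw [div_lt_iff₀ hη'0] at hZη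
    linarith
  have hηZ2 : 24 ^ n * C ^ 2 < η' * Z := by
    rw [div_lt_iff₀ hη'0] at hZη2
    linarith
  have hZ'1 : Z ≤ κ ^ n * Z := le_mul_of_one_le_left hZ0.le hκn
  have hZ'0 : 0 < κ ^ n * Z := by positivity
  obtain ⟨hUfin, hUle⟩ := hupp (κ ^ n * Z) (hZZ₁.trans hZ'1)
  -- the three sets
  obtain ⟨S1, hS1⟩ : ∃ S1 : Set (𝓞 k), S1 = Fam Φ N B E (η' * Z) := ⟨_, rfl⟩
  obtain ⟨S2', hS2'⟩ : ∃ S2' : Set (𝓞 k), S2' = {m : 𝓞 k | Sgn N (mixedEmbedding k (m : k)) ∧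
      av (mixedEmbedding k (m : k)) ∈ Φ.F ∧ nr (av (mixedEmbedding k (m : k))) ≤ κ ^ n * Z ∧
      ∃ (g : Q4 (𝓞 k)) (X Y : 𝓞 k), mm g = m ∧ GIrr g ∧ (X ≠ 0 ∨ Y ≠ 0) ∧
        nr (hk g X Y) < δ} := ⟨_, rfl⟩
  obtain ⟨S2, hS2⟩ : ∃ S2 : Set (𝓞 k), S2 = {m : 𝓞 k | (B.kap : 𝓞 k) * m ∈ S2'} := ⟨_, rfl⟩
  obtain ⟨S3, hS3⟩ : ∃ S3 : Set (𝓞 k), S3 = {m : 𝓞 k | m ∈ Fam Φ N B E Z ∧
      η' * Z ≤ nr (av (mixedEmbedding k (m : k))) ∧ (∀ x : k, x ^ 2 ≠ -(m : k)) ∧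
      ∃ g : Q4 (𝓞 k), mm g = (B.kap : 𝓞 k) * m ∧ GIrr g ∧ Typ B M h g ∧ Lrg N δ g} := ⟨_, rfl⟩
  have f1 : S1.Finite := by rw [hS1]; exact hMfin _
  have f2' : S2'.Finite := by
    rw [hS2']
    exact (hmst (κ ^ n * Z) hZ'0).1.subset fun m hm => ⟨hm.2.1, hm.2.2.1⟩
  have f2 : S2.Finite := by
    rw [hS2]
    exact f2'.preimage hkmul.injOn
  have f3 : S3.Finite := by
    rw [hS3]
    exact (hMfin Z).subset fun m hm => hm.1
  have hsub : {m | m ∈ Fam Φ N B E Z ∧ ((∃ x : k, x ^ 2 = -(m : k)) ∨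
        (∃ x : k, x ^ 2 = 3 * (m : k)) ∨
        ∃ F : Q4 (𝓞 k), GIrr F ∧ mm F = (B.kap : 𝓞 k) * m ∧ Typ B M h F)} ⊆
      S1 ∪ (S2 ∪ S3) := by
    rintro m ⟨hm, hor⟩
    by_cases hsmall : nr (av (mixedEmbedding k (m : k))) ≤ η' * Z
    · left
      rw [hS1]
      exact ⟨hm.1, hm.2.1, hsmall, hm.2.2.2.1, hm.2.2.2.2⟩
    · right
      push Not at hsmall
      by_cases hsq : (∃ x : k, x ^ 2 = -(m : k)) ∨ ∃ x : k, x ^ 2 = 3 * (m : k)
      · exfalso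
        have h1 := usb k B.cc m hcc hm.2.2.2.1 hsq
        rw [← hn, ← hC] at h1
        linarith
      · have hsq1 : ¬ ∃ x : k, x ^ 2 = -(m : k) := fun h' => hsq (Or.inl h')
        have hsq2 : ¬ ∃ x : k, x ^ 2 = 3 * (m : k) := fun h' => hsq (Or.inr h')
        rcases hor with h' | h' | ⟨g, hirr, hMm, htyp⟩
        · exact absurd h' hsq1
        · exact absurd h' hsq2
        by_cases hsh : ∃ X Y : 𝓞 k, (X ≠ 0 ∨ Y ≠ 0) ∧ nr (hk g X Y) < δ
        · obtain ⟨X, Y, hXY, hlt⟩ := hsh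
          left
          rw [hS2, hS2']
          refine ⟨?_, ?_, ?_, g, X, Y, hMm, hirr, hXY, hlt⟩
          · rw [me_mul, ← hκ]
            exact sgn_smul N κ hκ0 _ hm.1
          · rw [hsc]
            exact Φ.scal _ hm.2.1 κ hκ0
          · rw [hscn]
            exact mul_le_mul_of_nonneg_left hm.2.2.1 hκn0.le
        · push Not at hsh
          right
          rw [hS3]
          refine ⟨hm, hsmall.le, fun x hx => hsq1 ⟨x, hx⟩, g, hMm, hirr, htyp, ⟨?_, hsh⟩⟩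
          rw [hMm, me_mul, ← hκ]
          exact sgn_smul N κ hκ0 _ hm.1
  have hcount := Set.ncard_le_ncard hsub (f1.union (f2.union f3))
  have hc1 : (S1.ncard : ℝ) ≤ θ * Z := by
    rw [hS1]
    refine (hAMle (η' * Z) (by positivity)).trans ?_
    rw [← mul_assoc]
    exact mul_le_mul_of_nonneg_right hη' hZ0.le
  have hc2 : (S2.ncard : ℝ) ≤ θ * Z := by
    have h1 : S2.ncard ≤ S2'.ncard := by
      refine Set.ncard_le_ncard_of_injOn (fun m => (B.kap : 𝓞 k) * m) ?_ hkmul.injOn f2'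
      intro m hm
      rw [hS2] at hm
      exact hm
    have h2 : (S2'.ncard : ℝ) ≤ AE * δ * (κ ^ n * Z) := by
      rw [hS2']
      exact hexc δ (κ ^ n * Z) hδ0 hδ1 (hZ1.trans hZ'1)
    have h3 : (S2.ncard : ℝ) ≤ (S2'.ncard : ℝ) := by exact_mod_cast h1
    refine h3.trans (h2.trans ?_)
    rw [← mul_assoc]
    exact mul_le_mul_of_nonneg_right hδ hZ0.le
  -- the main part
  obtain ⟨U, hU⟩ : ∃ U : Set (Q4 (𝓞 k)), U = {g : Q4 (𝓞 k) |
      modQ I g ∈ S ∧ CReg Φ N (FD k) (κ ^ n * Z) T g ∧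
        (∀ v : InfinitePlace k, η₂ * v ((mm g : 𝓞 k) : k) ^ (1 / 4 : ℝ) ≤ v (g 0 : k)) ∧
        η₂ * (κ ^ n * Z) ≤ nr (av (mixedEmbedding k ((mm g : 𝓞 k) : k)))} := ⟨_, rfl⟩
  rw [← hU] at hUfin hUle
  have hWU : ∀ m ∈ S3, WsetB B M h Φ T η ((B.kap : 𝓞 k) * m) ⊆ U := by
    intro m hm w hw
    rw [hS3] at hm
    obtain ⟨hmM, hmη, -⟩ := hm
    obtain ⟨⟨w1, w2, w3, w4, w5, w6⟩, w7⟩ := hw
    rw [hU]
    refine ⟨hS w m w7 w1 hmM.2.2.2.1 hmM.2.2.2.2, ⟨w2, w3, ?_, ?_, w4, ?_, w5⟩,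
      fun s => ?_, ?_⟩
    · rw [w1, me_mul, ← hκ]
      exact sgn_smul N κ hκ0 _ hmM.1
    · rw [w1, hsc]
      exact Φ.scal _ hmM.2.1 κ hκ0
    · rw [w1, hscn]
      exact mul_le_mul_of_nonneg_left hmM.2.2.1 hκn0.le
    · refine le_trans (mul_le_mul_of_nonneg_right ?_ ?_) (w6 s)
      · rw [hη₂]; exact min_le_left _ _
      · exact Real.rpow_nonneg (apply_nonneg s _) _
    · rw [w1, hscn]
      have h1 : η₂ * Z ≤ nr (av (mixedEmbedding k (m : k))) := by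
        refine le_trans (mul_le_mul_of_nonneg_right ?_ hZ0.le) hmη
        rw [hη₂]; exact min_le_right _ _
      have h2 := mul_le_mul_of_nonneg_left h1 hκn0.le
      linarith
  have hWbig : ∀ m ∈ S3, 2 * ((1 - θ) * cL) ≤
      ((WsetB B M h Φ T η ((B.kap : 𝓞 k) * m)).ncard : ℝ) := by
    intro m hm
    have hWf : (WsetB B M h Φ T η ((B.kap : 𝓞 k) * m)).Finite := hUfin.subset (hWU m hm)
    have hm' := hm
    rw [hS3] at hm'
    obtain ⟨hmM, hmη, hmsq, g, hvm, hirr, htyp, hlrg⟩ := hm'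
    have hm0 : mm g ≠ 0 := by
      rw [hvm]
      intro h0
      have h1 : m = 0 := by
        rcases mul_eq_zero.1 h0 with h' | h'
        · exact absurd h' (by exact_mod_cast hkap0.ne')
        · exact h'
      rw [h1, nr_zero] at hmη
      linarith
    obtain ⟨-, h1⟩ := hlow g hlrg
    obtain ⟨-, h2⟩ := hlow (gmir g) (lrg_gmir hka hlrg hm0)
    have hsq : ∀ x : k, x ^ 2 ≠ -((mm g : 𝓞 k) : k) := by
      intro x hx
      have hbk : ((3 : k) ^ 4 * (B.b : k) ^ 3) ≠ 0 := by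
        have hb' : (B.b : k) ≠ 0 := by exact_mod_cast hb0.ne'
        exact mul_ne_zero (pow_ne_zero _ three_ne_zero) (pow_ne_zero _ hb')
      apply hmsq (x / ((3 : k) ^ 4 * (B.b : k) ^ 3))
      have hkk : (((B.kap : 𝓞 k) * m : 𝓞 k) : k) =
          ((3 : k) ^ 4 * (B.b : k) ^ 3) ^ 2 * (m : k) := by
        have e : (((B.kap : 𝓞 k) * m : 𝓞 k) : k) = (B.kap : k) * (m : k) := by push_cast; ring
        rw [e]
        unfold BFr.kap
        push_cast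
        ring
      rw [div_pow, hx, hvm, div_eq_iff (pow_ne_zero 2 hbk), hkk]
      ring
    have h3 := injb k B M h Φ T η g htyp hirr hsq (by rw [hvm]; exact hWf)
    rw [hvm] at h3
    have h4 : bR * (((MksB B Φ T η g).ncard : ℝ) + ((MksB B Φ T η (gmir g)).ncard : ℝ)) ≤
        ((WsetB B M h Φ T η ((B.kap : 𝓞 k) * m)).ncard : ℝ) := by
      rw [hbR]
      exact_mod_cast h3
    linarith
  have hc3' : (S3.ncard : ℝ) * (2 * ((1 - θ) * cL)) ≤ (U.ncard : ℝ) := by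
    rw [Set.ncard_eq_toFinset_card U hUfin, Set.ncard_eq_toFinset_card S3 f3]
    have h1 : (∑ m ∈ f3.toFinset,
        (((hUfin.toFinset.filter fun w => mm w = (B.kap : 𝓞 k) * m).card : ℕ) : ℝ)) ≤
        (hUfin.toFinset.card : ℝ) := by
      have h2 : ∑ m ∈ f3.toFinset,
          (hUfin.toFinset.filter fun w => mm w = (B.kap : 𝓞 k) * m).card ≤
          hUfin.toFinset.card := by
        rw [← Finset.card_biUnion]
        · refine Finset.card_le_card ?_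
          intro w hw
          obtain ⟨m, -, hm⟩ := Finset.mem_biUnion.1 hw
          exact (Finset.mem_filter.1 hm).1
        · intro m _ m' _ hne
          rw [Function.onFun, Finset.disjoint_left]
          intro w hw hw'
          have e1 := (Finset.mem_filter.1 hw).2
          have e2 := (Finset.mem_filter.1 hw').2
          exact hne (hkmul (e1.symm.trans e2))
      exact_mod_cast h2
    refine le_trans ?_ h1
    rw [← nsmul_eq_mul, ← Finset.sum_const]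
    refine Finset.sum_le_sum fun m hm => ?_
    have hm' : m ∈ S3 := by simpa using hm
    refine (hWbig m hm').trans ?_
    have hWf : (WsetB B M h Φ T η ((B.kap : 𝓞 k) * m)).Finite := hUfin.subset (hWU m hm')
    rw [Set.ncard_eq_toFinset_card _ hWf]
    have : hWf.toFinset ⊆ hUfin.toFinset.filter fun w => mm w = (B.kap : 𝓞 k) * m := by
      intro w hw
      rw [Set.Finite.mem_toFinset] at hw
      rw [Finset.mem_filter, Set.Finite.mem_toFinset]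
      exact ⟨hWU m hm' hw, hw.1.1⟩
    exact_mod_cast Finset.card_le_card this
  have hUb : (U.ncard : ℝ) ≤ 2 * cL * (cM * r + θ) * Z := by
    have hUle2 : (U.ncard : ℝ) ≤ (((S.ncard : ℝ) / (Ideal.absNorm I : ℝ) ^ 4 * K +
        cL * θ / κ ^ n) * κ ^ n) * Z := by
      refine hUle.trans (le_of_eq ?_)
      ring
    refine hUle2.trans (mul_le_mul_of_nonneg_right ?_ hZ0.le)
    obtain ⟨β, hβ⟩ : ∃ β : ℝ, β = bR ^ 2 / (3 ^ (8 * n) * bR ^ (8 * n)) := ⟨_, rfl⟩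
    rw [← hβ] at hScard hκeq
    have hβ0 : 0 < β := by rw [hβ]; positivity
    have h1 : (S.ncard : ℝ) / (Ideal.absNorm I : ℝ) ^ 4 ≤
        (Pk k * DkE E + cL * θ * C ^ 2 / K) * β :=
      hScard.trans (mul_le_mul_of_nonneg_right hdf hβ0.le)
    have h2 : (S.ncard : ℝ) / (Ideal.absNorm I : ℝ) ^ 4 * (K * κ ^ n) ≤
        (Pk k * DkE E + cL * θ * C ^ 2 / K) * β * (K * κ ^ n) :=
      mul_le_mul_of_nonneg_right h1 (by positivity)
    have h3 : (Pk k * DkE E + cL * θ * C ^ 2 / K) * β * (K * κ ^ n) =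
        2 * cL * (cM * r) + cL * θ := by
      have e1 : (Pk k * DkE E + cL * θ * C ^ 2 / K) * β * (K * κ ^ n) =
          (Pk k * DkE E + cL * θ * C ^ 2 / K) * K * (β * κ ^ n) := by ring
      rw [e1, hκeq, ← hKc]
      field_simp
    have h4 : ((S.ncard : ℝ) / (Ideal.absNorm I : ℝ) ^ 4 * K + cL * θ / κ ^ n) * κ ^ n =
        (S.ncard : ℝ) / (Ideal.absNorm I : ℝ) ^ 4 * (K * κ ^ n) + cL * θ := by
      rw [add_mul, div_mul_cancel₀ _ hκn0.ne']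
      ring
    rw [h4]
    rw [h3] at h2
    linarith
  have hc3 : (S3.ncard : ℝ) ≤ (cM * r + θ) / (1 - θ) * Z := by
    have h1 : (S3.ncard : ℝ) * (2 * ((1 - θ) * cL)) ≤ 2 * cL * (cM * r + θ) * Z :=
      hc3'.trans hUb
    have h2 : 0 < 1 - θ := by linarith
    rw [div_mul_eq_mul_div, le_div_iff₀ h2]
    have h3 : (S3.ncard : ℝ) * (1 - θ) * (2 * cL) ≤ (cM * r + θ) * Z * (2 * cL) := by
      linarith
    exact le_of_mul_le_mul_right h3 (by positivity)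
  have hun : ((S1 ∪ (S2 ∪ S3)).ncard : ℝ) ≤ S1.ncard + (S2.ncard + S3.ncard) := by
    have h1 := Set.ncard_union_le S1 (S2 ∪ S3)
    have h2 := Set.ncard_union_le S2 S3
    have h3 : (S1 ∪ (S2 ∪ S3)).ncard ≤ S1.ncard + (S2.ncard + S3.ncard) := by omega
    exact_mod_cast h3
  have hMM := hZ₂ Z hZZ₂
  have hcount' : (({m | m ∈ Fam Φ N B E Z ∧ ((∃ x : k, x ^ 2 = -(m : k)) ∨
        (∃ x : k, x ^ 2 = 3 * (m : k)) ∨
        ∃ F : Q4 (𝓞 k), GIrr F ∧ mm F = (B.kap : 𝓞 k) * m ∧ Typ B M h F)}.ncard : ℕ) : ℝ) ≤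
      ((S1 ∪ (S2 ∪ S3)).ncard : ℝ) := by
    exact_mod_cast hcount
  refine hcount'.trans (hun.trans ?_)
  have hfin1 : (S1.ncard : ℝ) + (S2.ncard + S3.ncard) ≤
      (2 * θ + (cM * r + θ) / (1 - θ)) * Z := by linarith
  refine hfin1.trans ?_
  refine (mul_le_mul_of_nonneg_right hθ hZ0.le).trans ?_
  rw [mul_assoc]
  exact mul_le_mul_of_nonneg_left hMM (by positivity)

end Pool.Agent.LeoD.H26
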