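import Mathlib
import Pool.Agent.LeoD.CountStmts

/-!
# GNL: a local generator of an ideal (squad LEOD)
-/

set_option autoImplicit false

open NumberField NumberField.InfinitePlace NumberField.mixedEmbedding IsDedekindDomain Module
  MeasureTheory Filter Topology
open Pool.Agent.Helper85_Leo Pool.Agent.LeoK Pool.Agent.LeoG Pool.Agent.LeoC

open scoped Classical

namespace Pool.Agent.LeoD.H26

theorem gnl : GnlStmt := by
  intro k _ _ I J hI hJ
  have hIJ : I * J ≠ 0 := mul_ne_zero hI hJ
  have hle : I * J ≤ I := Ideal.mul_le_left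
  obtain ⟨a, ha⟩ := IsDedekindDomain.exists_sup_span_eq hle hIJ
  have haI : a ∈ I := by
    rw [← ha]
    exact Ideal.mem_sup_right (Ideal.mem_span_singleton_self a)
  refine ⟨a, haI, ?_, ?_⟩
  · intro s hs
    have h1 : Ideal.span {s} * I ≤ J * I := by
      conv_lhs => rw [← ha]
      rw [Ideal.mul_sup, Ideal.span_singleton_mul_span_singleton]
      refine sup_le ?_ ?_
      · refine le_trans Ideal.mul_le_right ?_
        rw [mul_comm]
      · rw [Ideal.span_singleton_le_iff_mem, mul_comm J I]
        exact hs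
    rw [← Ideal.dvd_iff_le] at h1
    have h2 := (mul_dvd_mul_iff_right hI).1 h1
    rw [Ideal.dvd_span_singleton] at h2
    exact h2
  · intro x hx
    rw [← ha] at hx
    obtain ⟨y, hy, z, hz, hyz⟩ := Submodule.mem_sup.1 hx
    obtain ⟨s, hs⟩ := Ideal.mem_span_singleton'.1 hz
    refine ⟨s, ?_⟩
    rw [← hyz, ← hs]
    simpa using hy

end Pool.Agent.LeoD.H26
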